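import Pool.Agent.H73.NK.Targets

/-!
Module ER of the board nk_modules: the error terms for rough moduli.
-/

set_option autoImplicit false

open Finset

namespace Pool.Agent.H12.NK

open Pool.Agent.H73.NK
open Pool.Agent.H30.BV (SC SP NX WX wx T_S1 T_DY cv TX)

theorem SP_nonneg (X : ℝ) (q : ℕ) : 0 ≤ SP X q := by
  unfold SP
  refine finsum_nonneg fun χ => ?_
  split_ifs
  · exact norm_nonneg _
  · exact le_rfl

theorem pf_ER (hS1 : T_S1) (hDY : T_DY) (hSZ : T_SZ) (hDR : T_DR) (hFM : T_FM) (hTO : T_TO) :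
    T_ER := by
  obtain ⟨C₀, hC₀, hDY⟩ := hDY
  refine ⟨32 + 4 * C₀, by linarith, ?_⟩
  intro s z l H X h hX hl hs hsz hz hH hHz hYX
  obtain ⟨i₀⟩ : Nonempty (Fin s) := ⟨⟨0, by omega⟩⟩
  have hH1 : 1 ≤ H := by
    have h1 := hH i₀
    have h2 : (0 : ℝ) ≤ (h i₀ : ℝ) := Nat.cast_nonneg _
    linarith
  have hs1 : (1 : ℝ) ≤ s := by exact_mod_cast hs
  have hE0 : 0 ≤ s * H * l := by positivity
  set Y : ℝ := Real.exp (s * H * l) with hY
  have hY1 : 1 ≤ Y := Real.one_le_exp hE0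
  have hYleX : Y ≤ X := by
    refine le_trans ?_ hYX
    calc Y ≤ 2 * Y := by linarith
      _ = (2 * Y) ^ 1 := by ring
      _ ≤ (2 * Y) ^ 8 := pow_le_pow_right₀ (by linarith) (by norm_num)
  obtain ⟨hT1, hT2, -⟩ := hSZ s z l H h hl hH
  set L : ℝ := Real.log X ^ 2 with hL
  have hL0 : 0 ≤ L := by positivity
  have hHl : 0 ≤ H * l := by positivity
  have hP0 : 0 ≤ (1 + H * l) ^ s := by positivity
  -- single term
  have hterm : ∀ t ∈ TT z l h, (SC X (DT t) + 8 * L) / (DT t).totient ≤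
      32 * L + 2 * ∑ q ∈ Ioc ⌊z⌋₊ ⌊Y⌋₊, (if q ∣ DT t then SP X q * (1 / DT t) else 0) := by
    intro t ht
    obtain ⟨hD1, hDY', hDR', -⟩ := hT1 t ht
    set D := DT t with hD
    have hD1' : (1 : ℝ) ≤ D := by exact_mod_cast hD1
    have hD0 : (0 : ℝ) < D := by linarith
    have hlog : 2 * Real.log D ≤ z * Real.log z := by
      have h1 : Real.log D ≤ s * H * l := by
        rw [← Real.log_exp (s * H * l)]
        exact Real.log_le_log hD0 hDY'
      linarith
    have htot := hTO D z hD1 (by linarith) hDR' hlog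
    have htot0 : (0 : ℝ) < D.totient := by linarith
    have hS := hS1 X D hX hD1 (hDY'.trans hYleX)
    have hsum : ∑ q ∈ D.divisors.erase 1, SP X q ≤
        ∑ q ∈ Ioc ⌊z⌋₊ ⌊Y⌋₊, (if q ∣ D then SP X q else 0) := by
      rw [← Finset.sum_filter]
      refine Finset.sum_le_sum_of_subset_of_nonneg ?_ fun q _ _ => SP_nonneg X q
      intro q hq
      rw [Finset.mem_erase, Nat.mem_divisors] at hq
      obtain ⟨hq1, hqD, hDne⟩ := hq
      rw [Finset.mem_filter, Finset.mem_Ioc]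
      refine ⟨⟨?_, ?_⟩, hqD⟩
      · have hp := Nat.minFac_prime hq1
        have h1 : z < q.minFac := hDR' _ hp ((Nat.minFac_dvd q).trans hqD)
        have hq0 : 0 < q := Nat.pos_of_dvd_of_pos hqD (by omega)
        have h2 : q.minFac ≤ q := Nat.minFac_le hq0
        rw [Nat.floor_lt (by linarith)]
        calc z < (q.minFac : ℝ) := h1
          _ ≤ q := by exact_mod_cast h2
      · refine Nat.le_floor ?_
        refine le_trans ?_ hDY'
        exact_mod_cast Nat.le_of_dvd (by omega) hqD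
    have hsum0 : 0 ≤ ∑ q ∈ D.divisors.erase 1, SP X q :=
      Finset.sum_nonneg fun q _ => SP_nonneg X q
    have h3 : SC X D + 8 * L ≤ 16 * D * L + ∑ q ∈ D.divisors.erase 1, SP X q := by
      have : 8 * L ≤ 8 * D * L := by nlinarith
      calc SC X D + 8 * L ≤ 8 * D * Real.log X ^ 2 + ∑ q ∈ D.divisors.erase 1, SP X q
            + 8 * D * L := by linarith
        _ = 16 * D * L + ∑ q ∈ D.divisors.erase 1, SP X q := by rw [hL]; ring
    have h4 : (1 : ℝ) / D.totient ≤ 2 / D := by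
      rw [div_le_div_iff₀ htot0 hD0]; linarith
    calc (SC X D + 8 * L) / D.totient
        ≤ (16 * D * L + ∑ q ∈ D.divisors.erase 1, SP X q) / D.totient := by
          exact div_le_div_of_nonneg_right h3 htot0.le
      _ = (16 * D * L + ∑ q ∈ D.divisors.erase 1, SP X q) * (1 / D.totient) := by ring
      _ ≤ (16 * D * L + ∑ q ∈ D.divisors.erase 1, SP X q) * (2 / D) := by
          refine mul_le_mul_of_nonneg_left h4 (by positivity)
      _ = 32 * L + 2 * ((∑ q ∈ D.divisors.erase 1, SP X q) * (1 / D)) := by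
          field_simp
          ring
      _ ≤ 32 * L + 2 * ((∑ q ∈ Ioc ⌊z⌋₊ ⌊Y⌋₊, (if q ∣ D then SP X q else 0)) * (1 / D)) := by
          have : (0 : ℝ) ≤ 1 / D := by positivity
          have := mul_le_mul_of_nonneg_right hsum this
          linarith
      _ = _ := by
          rw [Finset.sum_mul]
          congr 2
          refine Finset.sum_congr rfl fun q _ => ?_
          split_ifs <;> simp
  -- interchange
  have hq : ∀ q ∈ Ioc ⌊z⌋₊ ⌊Y⌋₊,
      ∑ t ∈ TT z l h, (if q ∣ DT t then SP X q * (1 / DT t) else 0) ≤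
        (1 + H * l) ^ s * (SP X q / √(q : ℝ)) := by
    intro q hq
    rw [Finset.mem_Ioc] at hq
    have hqz : z < q := (Nat.floor_lt (by linarith)).1 hq.1
    have hq0 : (0 : ℝ) < q := by linarith
    have hq1 : 1 ≤ q := by exact_mod_cast hq0
    rw [← Finset.sum_filter, ← Finset.mul_sum]
    have hkey : ∑ t ∈ (TT z l h).filter (fun t => q ∣ DT t), (1 : ℝ) / DT t ≤
        (1 + H * l) ^ s / √(q : ℝ) := by
      by_cases hne : ((TT z l h).filter (fun t => q ∣ DT t)).Nonempty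
      · obtain ⟨t, ht⟩ := hne
        rw [Finset.mem_filter] at ht
        obtain ⟨-, -, hR, -⟩ := hT1 t ht.1
        have hRq : Rough z q := fun p hp hpq => hR p hp (hpq.trans ht.2)
        have h1 := hDR s z l H h q hl hH hq1
        have h2 := hFM s q z hq1 hsz (by linarith) hRq
        have h3 : ((fm s q).card : ℝ) ≤ √(q : ℝ) := Real.le_sqrt_of_sq_le h2
        refine h1.trans ?_
        have hsq : 0 < √(q : ℝ) := Real.sqrt_pos.2 hq0
        calc (1 + H * l) ^ s * (fm s q).card / q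
            ≤ (1 + H * l) ^ s * √(q : ℝ) / q := by
              refine div_le_div_of_nonneg_right ?_ hq0.le
              exact mul_le_mul_of_nonneg_left h3 hP0
          _ = (1 + H * l) ^ s / √(q : ℝ) := by
              rw [div_eq_div_iff hq0.ne' hsq.ne', mul_assoc, Real.mul_self_sqrt hq0.le]
      · rw [Finset.not_nonempty_iff_eq_empty] at hne
        rw [hne, Finset.sum_empty]
        positivity
    calc SP X q * ∑ t ∈ (TT z l h).filter (fun t => q ∣ DT t), (1 : ℝ) / DT t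
        ≤ SP X q * ((1 + H * l) ^ s / √(q : ℝ)) :=
          mul_le_mul_of_nonneg_left hkey (SP_nonneg X q)
      _ = (1 + H * l) ^ s * (SP X q / √(q : ℝ)) := by ring
  have hfl3 : 3 ≤ ⌊z⌋₊ := Nat.le_floor (by exact_mod_cast hz)
  have hD8 : (2 * ((⌊Y⌋₊ : ℕ) : ℝ)) ^ 8 ≤ X := by
    refine le_trans ?_ hYX
    have h1 : ((⌊Y⌋₊ : ℕ) : ℝ) ≤ Y := Nat.floor_le (by linarith)
    exact pow_le_pow_left₀ (by positivity) (by linarith) 8
  have hdy := hDY X ⌊z⌋₊ ⌊Y⌋₊ hX (by omega) hD8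
  have hzpos : 0 < z := by linarith
  have hsz0 : 0 < √z := Real.sqrt_pos.2 hzpos
  have hfloor : 1 / √((⌊z⌋₊ : ℕ) : ℝ) ≤ 2 / √z := by
    have h1 : z - 1 < ((⌊z⌋₊ : ℕ) : ℝ) := by
      have := Nat.lt_floor_add_one z
      linarith
    have h2 : z / 4 ≤ ((⌊z⌋₊ : ℕ) : ℝ) := by linarith
    have h3 : √z / 2 ≤ √((⌊z⌋₊ : ℕ) : ℝ) := by
      refine Real.le_sqrt_of_sq_le ?_
      rw [div_pow, Real.sq_sqrt hzpos.le]
      linarith
    calc 1 / √((⌊z⌋₊ : ℕ) : ℝ) ≤ 1 / (√z / 2) :=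
          one_div_le_one_div_of_le (by positivity) h3
      _ = 2 / √z := by field_simp
  calc ∑ t ∈ TT z l h, (SC X (DT t) + 8 * Real.log X ^ 2) / (DT t).totient
      ≤ ∑ t ∈ TT z l h, (32 * L + 2 * ∑ q ∈ Ioc ⌊z⌋₊ ⌊Y⌋₊,
          (if q ∣ DT t then SP X q * (1 / DT t) else 0)) := Finset.sum_le_sum hterm
    _ = 32 * L * (TT z l h).card + 2 * ∑ q ∈ Ioc ⌊z⌋₊ ⌊Y⌋₊, ∑ t ∈ TT z l h,
          (if q ∣ DT t then SP X q * (1 / DT t) else 0) := by
        rw [Finset.sum_add_distrib, Finset.sum_const, nsmul_eq_mul, ← Finset.mul_sum,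
          Finset.sum_comm]
        ring
    _ ≤ 32 * L * Y + 2 * ∑ q ∈ Ioc ⌊z⌋₊ ⌊Y⌋₊, (1 + H * l) ^ s * (SP X q / √(q : ℝ)) := by
        have h1 := Finset.sum_le_sum hq
        have h2 : 32 * L * (TT z l h).card ≤ 32 * L * Y :=
          mul_le_mul_of_nonneg_left hT2 (by positivity)
        linarith
    _ = 32 * L * Y + 2 * (1 + H * l) ^ s * ∑ q ∈ Ioc ⌊z⌋₊ ⌊Y⌋₊, SP X q / √(q : ℝ) := by
        rw [← Finset.mul_sum]; ring
    _ ≤ 32 * L * Y + 2 * (1 + H * l) ^ s * (C₀ * X * L / √((⌊z⌋₊ : ℕ) : ℝ)) := by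
        have h1 := mul_le_mul_of_nonneg_left hdy (by positivity : 0 ≤ 2 * (1 + H * l) ^ s)
        linarith
    _ = 32 * L * Y + 2 * (1 + H * l) ^ s * (C₀ * X * L) * (1 / √((⌊z⌋₊ : ℕ) : ℝ)) := by ring
    _ ≤ 32 * L * Y + 2 * (1 + H * l) ^ s * (C₀ * X * L) * (2 / √z) := by
        have h1 := mul_le_mul_of_nonneg_left hfloor
          (by positivity : 0 ≤ 2 * (1 + H * l) ^ s * (C₀ * X * L))
        linarith
    _ = L * (32 * Y + 4 * C₀ * ((1 + H * l) ^ s * X / √z)) := by ring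
    _ ≤ L * ((32 + 4 * C₀) * (Y + (1 + H * l) ^ s * X / √z)) := by
        refine mul_le_mul_of_nonneg_left ?_ hL0
        have h1 : 0 ≤ (1 + H * l) ^ s * X / √z := by positivity
        have h2 : 0 ≤ 4 * C₀ * Y := by positivity
        have h3 : 0 ≤ 32 * ((1 + H * l) ^ s * X / √z) := by positivity
        linarith
    _ = (32 + 4 * C₀) * L * (Y + (1 + H * l) ^ s * X / √z) := by ring

end Pool.Agent.H12.NK
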