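import Pool.Agent.H73.NK.Targets

/-!
Module PR of the board nk_modules: from the weighted sum to the primes of `PQ X`.
-/

set_option autoImplicit false

open Finset

namespace Pool.Agent.H12.NK

open Pool.Agent.H73.NK
open Pool.Agent.H30.BV (SC SP NX WX wx)
open Pool.Agent.H27.LS (hat hat_nonneg hat_le_one hat_eq_zero abs_lt_one_of_hat_ne_zero)

theorem pr_wx_nonneg (X : ℝ) (n : ℕ) : 0 ≤ wx X n := by
  unfold wx
  exact mul_nonneg ArithmeticFunction.vonMangoldt_nonneg (hat_nonneg _)

theorem pf_PR (hPP : T_PP) : T_PR := by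
  obtain ⟨C, hC, hPP⟩ := hPP
  refine ⟨C, hC, ?_⟩
  intro s z l X h hX
  have hX0 : 0 < X := by linarith
  have hlog0 : 0 < Real.log (4 * X) := Real.log_pos (by linarith)
  have hden : 0 < 4 * X * Real.log (4 * X) := by positivity
  have hpp := hPP X hX
  have hNX : (NX X : ℝ) ≤ 4 * X := by
    unfold NX
    have := Nat.ceil_lt_add_one (a := 3 * X) (by linarith)
    linarith
  rw [div_le_iff₀ hden]
  have hsplit : ∑ n ∈ Icc 1 (NX X), wx X n * (om z l h n : ℝ) =
      ∑ n ∈ (Icc 1 (NX X)).filter (fun n => ¬ n.Prime), wx X n * (om z l h n : ℝ) +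
      ∑ n ∈ (Icc 1 (NX X)).filter (fun n => n.Prime), wx X n * (om z l h n : ℝ) := by
    rw [add_comm]
    exact (Finset.sum_filter_add_sum_filter_not _ _ _).symm
  have h1 : ∑ n ∈ (Icc 1 (NX X)).filter (fun n => ¬ n.Prime), wx X n * (om z l h n : ℝ) ≤
      C * √X * Real.log X ^ 2 * (TT z l h).card := by
    calc ∑ n ∈ (Icc 1 (NX X)).filter (fun n => ¬ n.Prime), wx X n * (om z l h n : ℝ)
        ≤ ∑ n ∈ (Icc 1 (NX X)).filter (fun n => ¬ n.Prime), wx X n * ((TT z l h).card : ℝ) := by
          refine Finset.sum_le_sum fun n _ => ?_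
          refine mul_le_mul_of_nonneg_left ?_ (pr_wx_nonneg X n)
          unfold om
          exact_mod_cast Finset.card_filter_le _ _
      _ = (∑ n ∈ (Icc 1 (NX X)).filter (fun n => ¬ n.Prime), wx X n) * (TT z l h).card := by
          rw [Finset.sum_mul]
      _ ≤ _ := mul_le_mul_of_nonneg_right hpp (Nat.cast_nonneg _)
  have h2 : ∑ n ∈ (Icc 1 (NX X)).filter (fun n => n.Prime), wx X n * (om z l h n : ℝ) ≤
      (∑ q ∈ PQ X, (om z l h q : ℝ) / q) * (4 * X * Real.log (4 * X)) := by
    rw [Finset.sum_mul]
    have h3 : ∑ n ∈ (Icc 1 (NX X)).filter (fun n => n.Prime), wx X n * (om z l h n : ℝ) =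
        ∑ n ∈ PQ X, wx X n * (om z l h n : ℝ) := by
      symm
      refine Finset.sum_subset ?_ ?_
      · intro q hq
        unfold PQ at hq
        rw [Finset.mem_filter] at hq ⊢
        exact ⟨hq.1, hq.2.1⟩
      · intro q hq hq'
        rw [Finset.mem_filter, Finset.mem_Icc] at hq
        have hqX : (q : ℝ) < X / 3 := by
          by_contra hcon
          push Not at hcon
          refine hq' ?_
          unfold PQ
          rw [Finset.mem_filter, Finset.mem_Icc]
          exact ⟨hq.1, hq.2, hcon⟩
        have hq0 : (0 : ℝ) < q := by exact_mod_cast hq.1.1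
        have hhat : hat (Real.log (q / X)) = 0 := by
          refine hat_eq_zero ?_
          have h5 : (q : ℝ) / X < 1 / 3 := by
            rw [div_lt_iff₀ hX0]; linarith
          have h6 : Real.log ((q : ℝ) / X) ≤ Real.log (1 / 3) :=
            Real.log_le_log (by positivity) h5.le
          have h7 : Real.log (1 / 3 : ℝ) ≤ -1 := by
            rw [one_div, Real.log_inv]
            have h8 : (1 : ℝ) ≤ Real.log 3 := by
              rw [Real.le_log_iff_exp_le (by norm_num)]
              have := Real.exp_one_lt_d9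
              linarith
            linarith
          rw [abs_of_nonpos (by linarith)]
          linarith
        unfold wx
        rw [hhat]
        simp
    rw [h3]
    refine Finset.sum_le_sum fun q hq => ?_
    unfold PQ at hq
    rw [Finset.mem_filter, Finset.mem_Icc] at hq
    obtain ⟨⟨hq1, hqN⟩, hqp, hqX⟩ := hq
    have hq0 : (0 : ℝ) < q := by exact_mod_cast hq1
    have hq4 : (q : ℝ) ≤ 4 * X := le_trans (by exact_mod_cast hqN) hNX
    have hw : wx X q ≤ Real.log (4 * X) := by
      unfold wx
      rw [ArithmeticFunction.vonMangoldt_apply_prime hqp]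
      have h8 : Real.log q ≤ Real.log (4 * X) := Real.log_le_log hq0 hq4
      have h9 : 0 ≤ Real.log (q : ℝ) := Real.log_natCast_nonneg q
      calc Real.log q * hat (Real.log (q / X)) ≤ Real.log q * 1 :=
            mul_le_mul_of_nonneg_left (hat_le_one _) h9
        _ ≤ _ := by linarith
    have hom : (0 : ℝ) ≤ om z l h q := Nat.cast_nonneg _
    calc wx X q * (om z l h q : ℝ) ≤ Real.log (4 * X) * (om z l h q : ℝ) :=
          mul_le_mul_of_nonneg_right hw hom
      _ = Real.log (4 * X) * (om z l h q : ℝ) * 1 := by ring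
      _ ≤ Real.log (4 * X) * (om z l h q : ℝ) * (4 * X / q) := by
          refine mul_le_mul_of_nonneg_left ?_ (by positivity)
          rw [le_div_iff₀ hq0]; linarith
      _ = (om z l h q : ℝ) / q * (4 * X * Real.log (4 * X)) := by ring
  linarith

end Pool.Agent.H12.NK
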